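import Pool.Agent.K1H81.GT.Crit

/-!
# Tame representations of rank two: most tuples of primes

Let `d ≥ 0` and `δ > 0`. For all sufficiently large primes `p` the following holds. For all primes `q₁ ≡ 1 mod p` but a proportion
of at most `δ`, for all primes `q₂ ≡ 1 mod p` but a proportion of at most `δ` (which may depend on `q₁`), …, for all primes
`q_d ≡ 1 mod p` but a proportion of at most `δ`: every continuous residually unipotent representation
`ρ : Gal(ℚbar/ℚ) → GL_2(A)` over a discrete valuation ring `A` of characteristic zero with finite residue field of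
characteristic `p`, which is unramified outside `q₁, …, q_d` and any primes not congruent to `1` modulo `p` (so also at `p`), is
trivial, if `p - 1` does not divide `2 e`, where `e` is the valuation of `p`, or if the inertia groups act unipotently.

Proof. The criterion of the starting library (`RankTwoWeightZero.result`) asks that certain systems of equations for nilpotent two
by two matrices over the residue field, with the linking numbers of the primes as coefficients, have no solution without common
kernel. In characteristic zero and for algebraically independent linking numbers there are no such solutions: if there were one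
over a field `Ω`, algebraic over the field generated by the linking numbers, we could extend all derivations to `Ω`, and
differentiating the equations we see that a certain endomorphism of a finite dimensional vector space is surjective; but the
infinitesimal conjugations are in its kernel. Hence (elimination) there is a nonzero integral polynomial `F` in the linking numbers
such that there are no solutions over any field in which `F` does not vanish. For large `p` it does not vanish modulo `p`. By the
theorem of Chebotarev the linking numbers of a new prime with the given ones are jointly equidistributed up to scaling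
(`Pool.Agent.Q202.QT.densN`), and the lemma of Schwartz and Zippel over a field of rational functions shows that the specialised
polynomial does not vanish for most new primes.
-/

set_option autoImplicit false

open NumberField Matrix IsLocalRing

namespace Pool.Agent.Results.MP_f68ac8_nt.MostTuplesRankTwo

open Finset Filter
open Pool.Agent.K1H81.GT
open Pool.Agent.Q202.RT Pool.Agent.Q202.QT
open Pool.Agent.W569.TG (lk)

/-- All tame residually unipotent representations of rank two whose ramification at primes congruent to `1` modulo `p` is in `T`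
are trivial: for all finite sets `S` of primes `l ≠ p` whose members congruent to `1` modulo `p` are in `T`, all discrete
valuation rings `A` of characteristic zero, with the adic topology and finite residue field, in which `p` has valuation `e ≥ 1`,
every continuous `ρ : Gal(ℚbar/ℚ) → GL_2(A)`, unramified outside `S` (so also at `p`) and unipotent modulo the maximal ideal, such
that `p - 1` does not divide `2 e` or the inertia groups at the primes in `S` congruent to `1` modulo `p` act unipotently, is
trivial. -/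
def TameTrivial (p : ℕ) (T : Set ℕ) : Prop :=
  ∀ S : Finset ℕ, (∀ l ∈ S, l.Prime ∧ l ≠ p) → (∀ l ∈ S, p ∣ l - 1 → l ∈ T) →
    ∀ (A : Type) [CommRing A] [IsDomain A] [IsDiscreteValuationRing A] [CharZero A] [TopologicalSpace A],
      IsAdic (maximalIdeal A) → Finite (ResidueField A) →
    ∀ e : ℕ, 1 ≤ e → (p : A) ∈ maximalIdeal A ^ e → (p : A) ∉ maximalIdeal A ^ (e + 1) →
    ∀ ρ : Gal(AlgebraicClosure ℚ/ℚ) →* GL (Fin 2) A, Continuous ρ → RankTwoWeightZero.UnramifiedOutside S ρ →
      RankTwoWeightZero.ResiduallyUnipotent ρ → (¬ (p - 1) ∣ 2 * e ∨ RankTwoWeightZero.UnipotentInertia p S ρ) →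
      ∀ g, ρ g = 1

open Classical in
/-- The primes `q ≤ x` with `p ∣ q - 1`. -/
noncomputable def Pr (p x : ℕ) : Finset ℕ := (range (x + 1)).filter fun q => q.Prime ∧ p ∣ q - 1

open Classical in
/-- `Most p δ R n T`: for all primes `q₁ ≡ 1 mod p`, `q₁ ∉ T`, but a proportion of at most `δ`, for all primes `q₂ ≡ 1 mod p`,
`q₂ ∉ T ∪ {q₁}`, but a proportion of at most `δ`, …, for all primes `q_n ≡ 1 mod p`, `q_n ∉ T ∪ {q₁, …, q_{n-1}}`, but a proportion
of at most `δ`, the set `T ∪ {q₁, …, q_n}` has the property `R`. -/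
def Most (p : ℕ) (δ : ℝ) (R : Set ℕ → Prop) : ℕ → Set ℕ → Prop
  | 0, T => R T
  | n + 1, T => ∀ ε : ℝ, 0 < ε → ∀ᶠ x : ℕ in atTop, (1 - δ - ε) * ((Pr p x).card : ℝ) ≤
      (((Pr p x).filter fun q => q ∉ T ∧ Most p δ R n (insert q T)).card : ℝ)

theorem Pr_eq (p x : ℕ) [Fact p.Prime] : Pr p x = P1 p x := by
  ext l
  rw [mem_P1, Pr, mem_filter, mem_range]
  constructor
  · rintro ⟨h1, h2, h3⟩
    exact ⟨by omega, h2, h3⟩
  · rintro ⟨h1, h2, h3⟩
    exact ⟨by omega, h2, h3⟩

section
variable {p : ℕ} [hpF : Fact p.Prime] {d : ℕ}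

theorem trivial_of (hp2 : p ≠ 2) {F : R0 d} (hF : ∀ (K : Type) [Field K] (v : V d → K), ev v F ≠ 0 →
    (∀ i, v (Sum.inr i) ≠ 0) ∧ ∀ a b T, ¬ Bad v 0 a b T ∧ ¬ Bad v 1 a b T)
    (χ : ∀ j : ℕ, (ZMod j)ˣ →* Multiplicative (ZMod p)) (hχ : Kr χ) {l : ℕ → ℕ} (hne : ev (full χ l : V d → ZMod p) F ≠ 0)
    (hl : ∀ i < d, (l i).Prime) (hpl : ∀ i < d, p ∣ l i - 1) (hli : ∀ i < d, ∀ j < d, l i = l j → i = j) :
    (∀ q ∈ l '' {i | i < d}, ¬ p ^ 2 ∣ q - 1) ∧ TameTrivial p (l '' {i | i < d}) := by
  have hp : p.Prime := hpF.out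
  constructor
  · rintro q ⟨i, hi, rfl⟩ hd
    have h1 := (hF (ZMod p) (full χ l) hne).1 ⟨i, hi⟩
    apply h1
    show lv p (l i) = 0
    unfold lv
    rw [ZMod.natCast_eq_zero_iff]
    obtain ⟨m, hm⟩ := hd
    refine ⟨m, ?_⟩
    rw [hm, pow_two, mul_assoc, Nat.mul_div_cancel_left _ hp.pos]
  · intro S hS hT A _ _ _ _ _ hA hfin e he h0 h1 ρ hρ hur hres hcond
    have hpm : (p : A) ∈ maximalIdeal A := Ideal.pow_le_self (by omega) h0
    have hchar : CharP (ResidueField A) p := Pool.Agent.TH831.OE.charP_res hp hpm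
    have hpS : p ∉ S := fun h => (hS p h).2 rfl
    have hTame : ∀ q ∈ RankTwoWeightZero.Tame p S, ∃ i < d, q = l i := by
      intro q hq
      obtain ⟨h2, h3⟩ := mem_filter.1 hq
      obtain ⟨i, hi, h4⟩ := hT q h2 h3
      exact ⟨i, hi, h4.symm⟩
    have hres' := RankTwoWeightZero.result p hp2 S (fun q hq => (hS q hq).1) A hA hfin e he h0 h1 ρ hρ hur
      (fun h => absurd h hpS) hres
    refine hres'.2.2 hpS (Or.inr ⟨χ, ?_, ?_, ?_⟩) ?_
    · intro q hq
      obtain ⟨h2, h3⟩ := mem_filter.1 hq
      exact (hχ q (hS q h2).1 h3).1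
    · exact noPair hF hne hl hli hTame
    · intro r _
      exact noTuple hF hne hl hpl hli hTame r
    · rcases hcond with h | h
      · exact Or.inl h
      · exact Or.inr (Or.inr h)

variable {L : Type} [Field L] [Algebra (ZMod p) L] (xx : V d → L)

theorem asg_full (χ : ∀ j : ℕ, (ZMod j)ˣ →* Multiplicative (ZMod p)) (l : ℕ → ℕ) :
    (asg xx χ l d : V d → L) = fun v => algebraMap (ZMod p) L (full χ l v) := by
  funext v
  rcases v with y | i
  · simp only [asg, full, Sum.elim_inl]
    rw [if_pos ⟨y.1.1.2, y.1.2.2⟩]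
  · simp only [asg, full, Sum.elim_inr]
    rw [if_pos i.2]

theorem asg_zero (χ : ∀ j : ℕ, (ZMod j)ˣ →* Multiplicative (ZMod p)) (l : ℕ → ℕ) : (asg xx χ l 0 : V d → L) = xx := by
  funext v
  rcases v with y | i
  · simp only [asg, Sum.elim_inl]
    rw [if_neg (by omega)]
  · simp only [asg, Sum.elim_inr]
    rw [if_neg (by omega)]

/-- scaling one character -/
theorem exists_scaled (χ : ∀ j : ℕ, (ZMod j)ˣ →* Multiplicative (ZMod p)) (hχ : Kr χ) (q : ℕ) (c : ZMod p) (hc : c ≠ 0) :
    ∃ χ' : ∀ j : ℕ, (ZMod j)ˣ →* Multiplicative (ZMod p), Kr χ' ∧ (∀ k j, j ≠ q → lk χ' k j = lk χ k j) ∧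
      ∀ k, lk χ' k q = c * lk χ k q := by
  classical
  let f : Multiplicative (ZMod p) →* Multiplicative (ZMod p) :=
    AddMonoidHom.toMultiplicative (AddMonoidHom.mulLeft c)
  have hf : ∀ x : Multiplicative (ZMod p), Multiplicative.toAdd (f x) = c * Multiplicative.toAdd x := fun _ => rfl
  have hf1 : ∀ x : Multiplicative (ZMod p), f x = 1 ↔ x = 1 := by
    intro x
    rw [← toAdd_eq_zero, hf, mul_eq_zero, or_iff_right hc, toAdd_eq_zero]
  refine ⟨fun j => if j = q then f.comp (χ j) else χ j, ?_, ?_, ?_⟩
  · intro j hj hpj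
    by_cases hjq : j = q
    · simp only [if_pos hjq]
      obtain ⟨⟨x, hx⟩, h2⟩ := hχ j hj hpj
      refine ⟨⟨x, fun h => hx ((hf1 _).1 h)⟩, fun x => ?_⟩
      rw [← h2 x]
      exact hf1 _
    · simp only [if_neg hjq]
      exact hχ j hj hpj
  · intro k j hj
    unfold lk
    simp only [if_neg hj]
  · intro k
    unfold lk
    simp only [if_true]
    split_ifs with h
    · exact hf _
    · rw [mul_zero]

/-- the assignment after one more prime -/
theorem asg_succ (χ χ' : ∀ j : ℕ, (ZMod j)ˣ →* Multiplicative (ZMod p)) (l : ℕ → ℕ) (k q : ℕ) (c : ZMod p)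
    (h1 : ∀ a j, j ≠ q → lk χ' a j = lk χ a j) (h2 : ∀ a, lk χ' a q = c * lk χ a q) (hq : ∀ i < k, q ≠ l i)
    (w s : ℕ → ZMod p) (hw : ∀ i < k, w (i + 1) = lk χ (l i) q) (hs : ∀ j < k, s (j + 1) = lk χ q (l j)) (hs0 : s 0 = lv p q) :
    (asg xx χ' (Function.update l k q) (k + 1) : V d → L) =
      st xx (fun x : L => x) χ l k (fun i => algebraMap (ZMod p) L (c * w i)) (fun i => algebraMap (ZMod p) L (s i)) := by
  funext v
  rcases v with y | i
  · simp only [asg, st, Sum.elim_inl]
    have hne : (y.1.1 : ℕ) ≠ (y.1.2 : ℕ) := fun h => y.2 (Fin.ext h)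
    by_cases ha : (y.1.1 : ℕ) < k
    · by_cases hb : (y.1.2 : ℕ) < k
      · rw [if_pos ⟨by omega, by omega⟩, if_pos ⟨ha, hb⟩, Function.update_of_ne (by omega), Function.update_of_ne (by omega),
          h1 _ _ (Ne.symm (hq _ hb))]
      · by_cases hb' : (y.1.2 : ℕ) = k
        · rw [if_pos ⟨by omega, by omega⟩, if_neg (by omega), if_neg (by omega), if_pos ⟨ha, hb'⟩, hb', Function.update_self,
            Function.update_of_ne (by omega), h2, hw _ ha]
        · rw [if_neg (by omega), if_neg (by omega), if_neg (by omega), if_neg (by omega)]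
    · by_cases ha' : (y.1.1 : ℕ) = k
      · by_cases hb : (y.1.2 : ℕ) < k
        · rw [if_pos ⟨by omega, by omega⟩, if_neg (by omega), if_pos ⟨ha', hb⟩, ha', Function.update_self,
            Function.update_of_ne (by omega), h1 _ _ (Ne.symm (hq _ hb)), hs _ hb]
        · rw [if_neg (by omega), if_neg (by omega), if_neg (by omega), if_neg (by omega)]
      · rw [if_neg (by omega), if_neg (by omega), if_neg (by omega), if_neg (by omega)]
  · simp only [asg, st, Sum.elim_inr]
    by_cases ha : (i : ℕ) < k
    · rw [if_pos (by omega), if_pos ha, Function.update_of_ne (by omega)]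
    · by_cases ha' : (i : ℕ) = k
      · rw [if_pos (by omega), if_neg ha, if_pos ha', ha', Function.update_self, hs0]
      · rw [if_neg (by omega), if_neg ha, if_neg ha']

theorem most_of (hp2 : p ≠ 2) {F : R0 d} (hF : ∀ (K : Type) [Field K] (v : V d → K), ev v F ≠ 0 →
    (∀ i, v (Sum.inr i) ≠ 0) ∧ ∀ a b T, ¬ Bad v 0 a b T ∧ ¬ Bad v 1 a b T) {δ : ℝ}
    (hδ : ((F.totalDegree : ℝ) + 1) / p ≤ δ) (m : ℕ) :
    ∀ (k : ℕ) (_ : k + m = d) (χ : ∀ j : ℕ, (ZMod j)ˣ →* Multiplicative (ZMod p)) (_ : Kr χ) (l : ℕ → ℕ),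
      (∀ i < k, (l i).Prime) → (∀ i < k, p ∣ l i - 1) → (∀ i < k, ∀ j < k, l i = l j → i = j) →
      ev (asg xx χ l k) F ≠ 0 →
      Most p δ (fun T => (∀ q ∈ T, ¬ p ^ 2 ∣ q - 1) ∧ TameTrivial p T) m (l '' {i | i < k}) := by
  classical
  have hp : p.Prime := hpF.out
  have hp0 : (0 : ℝ) < p := by exact_mod_cast hp.pos
  induction m with
  | zero =>
    intro k hk χ hχ l hl hpl hli hG
    obtain rfl : k = d := by omega
    refine trivial_of hp2 hF χ hχ ?_ hl hpl hli
    rw [asg_full, ← hom_ev, map_ne_zero] at hG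
    exact hG
  | succ m ih =>
    intro k hk χ hχ l hl hpl hli hG ε hε
    have hst := stage_count xx F χ l k (by omega) hG
    obtain ⟨Good, hGood⟩ : ∃ G : (Fin (k + 1) → ZMod p) → (Fin (k + 1) → ZMod p) → Prop,
        G = fun w s => w ≠ 0 ∧ ∃ c : ZMod p, c ≠ 0 ∧ ev (st xx (fun x : L => x) χ l k
          (fun i => algebraMap (ZMod p) L (c * ext0 w i)) (fun i => algebraMap (ZMod p) L (ext0 s i))) F ≠ 0 := ⟨_, rfl⟩
    have hd := densN (p := p) hp2 χ hχ (fun i : Fin k => l i) (fun i => hl i i.2) (fun i => hpl i i.2)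
      (fun i j h => Fin.ext (hli i i.2 j j.2 h)) Good
      (fun w s h => by rw [hGood] at h; exact h.1) (by
        intro w s c hc h
        rw [hGood] at h ⊢
        obtain ⟨h1, c', hc', h2⟩ := h
        refine ⟨fun h0 => h1 (by
          funext j
          exact (mul_eq_zero.1 (congrFun h0 j)).resolve_left hc), c' * c⁻¹, mul_ne_zero hc' (inv_ne_zero hc), ?_⟩
        have e1 : (fun i => algebraMap (ZMod p) L (c' * c⁻¹ * ext0 (fun j => c * w j) i)) =
            fun i => algebraMap (ZMod p) L (c' * ext0 w i) := by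
          funext i
          congr 1
          have : ext0 (fun j => c * w j) i = c * ext0 w i := (ext0_map (fun x => c * x) (mul_zero c) w i).symm
          rw [this]
          field_simp
        rw [e1]
        exact h2) (1 - δ) (by
        have h1 : (0 : ℝ) ≤ ((F.totalDegree : ℝ) + 1) / p := by positivity
        linarith) (by
        rw [le_div_iff₀ (by
          have : 0 < Fintype.card (Fin (k + 1) → ZMod p) := Fintype.card_pos
          positivity), Fintype.card_fun, ZMod.card, Fintype.card_fin]
        have h1 : (1 - δ) * ((p : ℝ) ^ (k + 1) * ((p ^ (k + 1) : ℕ) : ℝ)) ≤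
            (1 - ((F.totalDegree : ℝ) + 1) / p) * ((p : ℝ) ^ (k + 1) * (p : ℝ) ^ (k + 1)) := by
          push_cast
          exact mul_le_mul_of_nonneg_right (by linarith) (by positivity)
        refine h1.trans (hst.trans ?_)
        rw [Nat.cast_le]
        refine sum_le_sum fun w _ => card_le_card ?_
        intro s hs
        rw [mem_filter] at hs ⊢
        rw [hGood]
        refine ⟨hs.1, hs.2.1, 1, one_ne_zero, ?_⟩
        simp only [one_mul]
        exact hs.2.2) ε hε
    filter_upwards [hd] with x hx
    rw [Pr_eq]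
    refine le_trans hx (Nat.cast_le.2 (card_le_card ?_))
    intro q hq
    obtain ⟨h1, h2, h34⟩ := (@Finset.mem_filter _ _ _ _ _).1 hq
    rw [hGood] at h34
    obtain ⟨h3, c, hc, h4⟩ := h34
    obtain ⟨-, hqp, hpq⟩ := mem_P1.1 h1
    have h2' : ∀ i < k, q ≠ l i := fun i hi => h2 ⟨i, hi⟩
    simp only [Finset.mem_filter]
    refine ⟨h1, fun ⟨i, hi, h⟩ => h2' i hi h.symm, ?_⟩
    obtain ⟨χ', hχ', e1, e2⟩ := exists_scaled χ hχ q c hc
    have hins : insert q (l '' {i | i < k}) = (Function.update l k q) '' {i | i < k + 1} := by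
      ext a
      constructor
      · rintro (rfl | ⟨i, hi, rfl⟩)
        · exact ⟨k, Nat.lt_succ_self k, Function.update_self _ _ _⟩
        · refine ⟨i, Nat.lt_succ_of_lt hi, Function.update_of_ne ?_ _ _⟩
          exact (Nat.ne_of_lt hi)
      · rintro ⟨i, hi, rfl⟩
        rcases Nat.lt_succ_iff_lt_or_eq.1 hi with h | h
        · rw [Function.update_of_ne (Nat.ne_of_lt h)]
          exact Or.inr ⟨i, h, rfl⟩
        · rw [h, Function.update_self]
          exact Or.inl rfl
    rw [hins]
    have hup : ∀ i < k, Function.update l k q i = l i := fun i hi => Function.update_of_ne (Nat.ne_of_lt hi) _ _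
    refine ih (k + 1) (by omega) χ' hχ' (Function.update l k q) ?_ ?_ ?_ ?_
    · intro i hi
      rcases Nat.lt_succ_iff_lt_or_eq.1 hi with h | h
      · rw [hup i h]
        exact hl i h
      · rw [h, Function.update_self]
        exact hqp
    · intro i hi
      rcases Nat.lt_succ_iff_lt_or_eq.1 hi with h | h
      · rw [hup i h]
        exact hpl i h
      · rw [h, Function.update_self]
        exact hpq
    · intro i hi j hj hij
      rcases Nat.lt_succ_iff_lt_or_eq.1 hi with h | h
      · rcases Nat.lt_succ_iff_lt_or_eq.1 hj with h' | h'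
        · rw [hup i h, hup j h'] at hij
          exact hli i h j h' hij
        · rw [hup i h, h', Function.update_self] at hij
          exact absurd hij.symm (h2' i h)
      · rcases Nat.lt_succ_iff_lt_or_eq.1 hj with h' | h'
        · rw [hup j h', h, Function.update_self] at hij
          exact absurd hij (h2' j h')
        · omega
    · rw [asg_succ xx χ χ' l k q c e1 e2 h2'
        (ext0 (vec χ (Fin.cons p fun i : Fin k => l i) q)) (ext0 (Fin.cons (lv p q) fun i : Fin k => lk χ q (l i)))
        ?_ ?_ ?_]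
      · exact h4
      · intro i hi
        unfold ext0
        rw [dif_pos (by omega : i + 1 < k + 1)]
        rfl
      · intro j hj
        unfold ext0
        rw [dif_pos (by omega : j + 1 < k + 1)]
        rfl
      · unfold ext0
        rw [dif_pos (Nat.succ_pos k)]
        rfl

end

/-- **Tame representations of rank two, most tuples of primes.** -/
theorem result (d : ℕ) (δ : ℝ) (hδ : 0 < δ) : ∃ p₀ : ℕ, ∀ p : ℕ, p₀ ≤ p → p.Prime →
    Most p δ (fun T => (∀ q ∈ T, ¬ p ^ 2 ∣ q - 1) ∧ TameTrivial p T) d ∅ := by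
  obtain ⟨F, hF0, hF⟩ := exists_F d
  -- a nonzero coefficient
  obtain ⟨m, hm⟩ := MvPolynomial.ne_zero_iff.1 hF0
  obtain ⟨N, hN⟩ := exists_nat_ge (((F.totalDegree : ℝ) + 1) / δ)
  refine ⟨max 3 (max (F.coeff m).natAbs.succ N), fun p hpp hp => ?_⟩
  have : Fact p.Prime := ⟨hp⟩
  have h3 : 3 ≤ p := (le_max_left _ _).trans hpp
  have hc : (F.coeff m).natAbs < p := (Nat.lt_succ_self _).trans_le (((le_max_left _ _).trans (le_max_right _ _)).trans hpp)
  have hNp : N ≤ p := ((le_max_right _ _).trans (le_max_right _ _)).trans hpp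
  have hp0 : (0 : ℝ) < p := by exact_mod_cast hp.pos
  obtain ⟨χ, hχ⟩ := Pool.Agent.TH146.FM.exists_chi p
  let L := FractionRing (MvPolynomial (V d) (ZMod p))
  let xx : V d → L := fun v => algebraMap (MvPolynomial (V d) (ZMod p)) L (MvPolynomial.X v)
  have h := most_of (p := p) (d := d) (L := L) xx (by omega) hF (δ := δ) (by
    rw [div_le_iff₀ hp0]
    rw [div_le_iff₀ hδ] at hN
    have : (N : ℝ) ≤ p := by exact_mod_cast hNp
    nlinarith) d 0 (by omega) χ hχ (fun _ => 0) (fun i hi => absurd hi (Nat.not_lt_zero i))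
    (fun i hi => absurd hi (Nat.not_lt_zero i)) (fun i hi => absurd hi (Nat.not_lt_zero i)) (by
      rw [asg_zero]
      have e1 : ev xx F = algebraMap (MvPolynomial (V d) (ZMod p)) L (ev (fun v => MvPolynomial.X v) F) :=
        (hom_ev _ _ _).symm
      rw [e1, Ne, map_eq_zero_iff _ (IsFractionRing.injective (MvPolynomial (V d) (ZMod p)) L)]
      have e2 : ev (fun v => (MvPolynomial.X v : MvPolynomial (V d) (ZMod p))) F =
          MvPolynomial.map (Int.castRingHom (ZMod p)) F := by
        have : ev (fun v => (MvPolynomial.X v : MvPolynomial (V d) (ZMod p))) =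
            MvPolynomial.map (Int.castRingHom (ZMod p)) := by
          refine MvPolynomial.ringHom_ext (fun n => by simp) (fun i => ?_)
          rw [ev_X, MvPolynomial.map_X]
        rw [this]
      rw [e2]
      intro h0
      have h1 := congrArg (MvPolynomial.coeff m) h0
      rw [MvPolynomial.coeff_map, MvPolynomial.coeff_zero, eq_intCast, ZMod.intCast_zmod_eq_zero_iff_dvd] at h1
      have h2 := Int.natAbs_dvd_natAbs.2 h1
      rw [Int.natAbs_natCast] at h2
      have h4 := Nat.le_of_dvd (Int.natAbs_pos.2 hm) h2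
      omega)
  have hemp : ((fun _ => 0 : ℕ → ℕ) '' {i | i < 0}) = ∅ := by
    rw [Set.image_eq_empty]
    ext i
    simp
  rw [hemp] at h
  exact h

end Pool.Agent.Results.MP_f68ac8_nt.MostTuplesRankTwo
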