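import Pool.Agent.K1H2.FM.Tw

/-!
# Fontaine–Mazur for representations whose traces look geometric at a positive proportion of the places

Let `K` be a number field and `ρ : G_K → GL_n(F)` a continuous irreducible representation over a
`p`-adic field `F`. Let `ψ_i` be finitely many continuous semisimple representations of `G_K` over `F`
and `m_i` integers. Suppose that for all `v` in a set `P` of places of positive upper density the trace
of the Frobenius elements at `v` under `ρ` is not zero and is a combination
`∑ b_{v,i} N(v) ^ m_i tr ψ_i(Frob_v)` with integers `b_{v,i}` of a number field (up to a fixed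
denominator) which are bounded in the mean. Then `ρ` is a subrepresentation of `ψ_i(m_i) ⊗ F^T` for some
`i` and some finite set `T` with a continuous action of `G_K`.

So if the `ψ_i` come from geometry, then so does `ρ`: if `ψ_i` is a subquotient of the cohomology of
`X`, then `ρ` is a subquotient of that of `X × T`, twisted by `m_i`. If all `ψ_i` are trivial, so that
the traces at the places in `P` are nonzero combinations of powers of `N(v)` with bounded coefficients,
then the conclusion is that some Tate twist of `ρ` has finite image; an example are the representations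
with `a_v = N(v) ^ m b_v`, with `b_v` bounded, for all `v ∈ P`. Here `P` may be arbitrarily small, as
long as it has positive upper density; nothing is assumed at the other places, at the places above `p`,
and on the ramification of `ρ`. It is necessary to assume that the traces are not zero: if `ρ` and `ψ`
are induced from representations of the absolute Galois group of a quadratic extension of `K` then the
traces of both vanish at half of the places.

Proof. Let `f` be a linear combination of matrix entries of finitely many continuous representations of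
a compact group. The space spanned by the matrix entries has finite dimension and is stable under
translations. Comparing the zero set of a maximal subspace which vanishes on a set of positive measure
with its translates we see that the zero set of `f` is the union of its interior and of a null set.
By Chebotarev's theorem for closed sets some Frobenius element, at which the trace of `ρ` does not
vanish, lies in the interior of the set where `tr ρ = ∑ s_i tr ψ_i(m_i)`. So this equation holds on
a coset `U g` of an open normal subgroup, and `tr ρ(g) ≠ 0`. If `ρ` and the `ψ_i(m_i)` had no common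
constituents over `U`, an element of the group algebra of `U` would act as the identity under `ρ` and
as zero under the `ψ_i(m_i)`, and we would obtain `tr ρ(g) = 0`.
-/

set_option autoImplicit false

namespace Pool.Agent.Results.MP_f68ac8_nt.PositiveProportion

open NumberField IsDedekindDomain Filter Matrix

/-- the absolute Galois group of the field `K`, with the Krull topology -/
abbrev AbsGal (K : Type) [Field K] : Type := Gal(AlgebraicClosure K/K)

/-- `g` is an (arithmetic) Frobenius element at a maximal ideal `Q` of the ring of all algebraic
integers which lies above the finite place `v` of `K`. -/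
def IsFrobenius {K : Type} [Field K] [NumberField K] (v : HeightOneSpectrum (𝓞 K))
    (g : AbsGal K) : Prop :=
  ∃ Q : Ideal (𝓞 (AlgebraicClosure K)), Q.IsMaximal ∧
    Q.comap (algebraMap (𝓞 K) (𝓞 (AlgebraicClosure K))) = v.asIdeal ∧
    ∀ x : 𝓞 (AlgebraicClosure K), g • x - x ^ Ideal.absNorm v.asIdeal ∈ Q

/-- the finite places of `K` whose norm is at most `x` -/
def placesUpTo (K : Type) [Field K] [NumberField K] (x : ℕ) : Set (HeightOneSpectrum (𝓞 K)) :=
  {v | Ideal.absNorm v.asIdeal ≤ x}

/-- the `p`-adic cyclotomic character of the absolute Galois group of `K` -/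
noncomputable def chi (K : Type) [Field K] (p : ℕ) [Fact p.Prime] (g : AbsGal K) : ℚ_[p] :=
  ((cyclotomicCharacter (AlgebraicClosure K) p
    (MulSemiringAction.toRingAut (AbsGal K) (AlgebraicClosure K) g) : ℤ_[p]ˣ) : ℤ_[p])

section
variable {K F : Type} [Field K] [Field F] {n : ℕ}

/-- the matrix of `g` -/
noncomputable def mat (ρ : AbsGal K →* GL (Fin n) F) (g : AbsGal K) : Matrix (Fin n) (Fin n) F :=
  (ρ g : GL (Fin n) F)

/-- `U` is a subrepresentation of `ρ`. -/
def Stable (ρ : AbsGal K →* GL (Fin n) F) (U : Submodule F (Fin n → F)) : Prop :=
  ∀ g, ∀ x ∈ U, mat ρ g *ᵥ x ∈ U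

/-- `ρ` is semisimple. -/
def Semisimple (ρ : AbsGal K →* GL (Fin n) F) : Prop :=
  ∀ U, Stable ρ U → ∃ U', Stable ρ U' ∧ IsCompl U U'

/-- `ρ` has no subrepresentations besides `0` and itself. -/
def Irreducible (ρ : AbsGal K →* GL (Fin n) F) : Prop :=
  ∀ U, Stable ρ U → U = ⊥ ∨ U = ⊤

end

/-- **Positive proportion.**

Let `K` be a number field, `p` a prime number, `F` an extension of `ℚ_p` with an absolute value
which extends the `p`-adic one (for example `ℚ_p`, a finite extension, or the completion of an
algebraic closure), and `ρ : G_K → GL_n(F)` a continuous semisimple representation. Let `ψ i` be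
finitely many continuous semisimple representations of `G_K` over `F`, and `m i` integers.

Let `P` be a set of finite places of `K`, and `E` a number field with an embedding `τ` in `F`. Suppose
that for `v ∈ P` and all Frobenius elements `g` at `v` the trace of `ρ g` is not zero, and that
`d tr ρ(g) = ∑ b_{v,i} N(v) ^ m_i tr ψ_i(g)` with integers `b_{v,i}` of `E` (`d > 0` is a fixed natural
number). Suppose that for arbitrarily large `x` there are at least `δ π(x)` places in `P` of norm at
most `x`, where `δ > 0`, and that for the same `x` the sum of the absolute values of all complex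
conjugates of all `b_{v,i}`, over all `v ∈ P` of norm at most `x`, is at most `C π(x)`.

Then for some `i` there are a finite set `T` with a continuous action of `G_K` and a nonzero
`G_K`-equivariant linear map `J` from `ρ` to the representation `ψ_i(m_i) ⊗ F^T`, the space of functions
from `T` to `ψ_i(m_i)`. If `ρ` is irreducible, then `J` is injective. -/
theorem result {K : Type} [Field K] [NumberField K] (p : ℕ) [Fact p.Prime] {F : Type}
    [NormedField F] [NormedAlgebra ℚ_[p] F] {n : ℕ}
    (ρ : AbsGal K →* GL (Fin n) F) (hρ : Continuous ρ) (hss : Semisimple ρ)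
    {ι : Type} [Fintype ι] (k : ι → ℕ) (ψ : ∀ i, AbsGal K →* GL (Fin (k i)) F)
    (hψ : ∀ i, Continuous (ψ i)) (hψs : ∀ i, Semisimple (ψ i)) (m : ι → ℤ)
    {E : Type} [Field E] [NumberField E] (τ : E →+* F)
    (P : Set (HeightOneSpectrum (𝓞 K))) (b : HeightOneSpectrum (𝓞 K) → ι → 𝓞 E)
    {d : ℕ} (hd : 0 < d)
    (htr : ∀ v ∈ P, ∀ g, IsFrobenius v g → (mat ρ g).trace ≠ 0 ∧
      (d : F) * (mat ρ g).trace =
        ∑ i, τ (b v i) * (Ideal.absNorm v.asIdeal : F) ^ m i * (mat (ψ i) g).trace)
    (δ C : ℝ) (hδ : 0 < δ)
    (hP : ∃ᶠ x : ℕ in atTop, δ * Nat.primeCounting x ≤ ((placesUpTo K x ∩ P).ncard : ℝ) ∧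
      ∑ᶠ v ∈ placesUpTo K x ∩ P, ∑ i, ∑ σ : E →+* ℂ, ‖σ (b v i)‖ ≤ C * Nat.primeCounting x) :
    ∃ i, ∃ (T : Type) (_ : Finite T) (_ : MulAction (AbsGal K) T),
      (∀ t : T, IsOpen (MulAction.stabilizer (AbsGal K) t : Set (AbsGal K))) ∧
      ∃ J : (Fin n → F) →ₗ[F] (T → Fin (k i) → F), J ≠ 0 ∧
        (∀ (g : AbsGal K) (x : Fin n → F) (t : T), J (mat ρ g *ᵥ x) t =
          (algebraMap ℚ_[p] F (chi K p g)) ^ m i • (mat (ψ i) g *ᵥ J x (g⁻¹ • t))) ∧
        (Irreducible ρ → Function.Injective J) := by
  obtain ⟨i, T, hT, hact, hopen, J, hJ0, hJ⟩ := Pool.Agent.K1H2.FM.main3 p ρ hρ hss k ψ hψ hψs m P τ b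
    hd htr hδ (C := C) (by
      refine (hP.and_eventually (Nat.tendsto_primeCounting.eventually_gt_atTop 0)).mono ?_
      rintro N ⟨⟨h1, h2⟩, h3⟩
      refine ⟨?_, h2⟩
      have h4 : (0 : ℝ) < (Nat.primeCounting N : ℝ) := by exact_mod_cast h3
      unfold Pool.Agent.W401.Cheb.dens
      rw [le_div_iff₀ h4]
      exact h1)
  refine ⟨i, T, hT, hact, hopen, J, hJ0, fun g x t => ?_, fun hirr => ?_⟩
  · have h1 := hJ g x t
    rw [Pool.Agent.K1H2.FM.mt_twist, Matrix.smul_mulVec] at h1
    exact h1
  · exact Pool.Agent.K1H2.FM.inj_of_irr ρ hirr _ J hJ0 hJ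

end Pool.Agent.Results.MP_f68ac8_nt.PositiveProportion
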