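import Pool.Agent.K1H2.FM.PA

/-!
# Fontaine–Mazur for representations which look supersingular at a positive proportion of the places

Let `K` be a number field and `ρ : G_K → GL_n(ℚ_p)` continuous and irreducible. Let
`ψ : G_K → GL_k(ℚ_p)` be any continuous representation, and let `P` be a set of finite places of
positive upper density such that for `v ∈ P` the `a`-th powers of the eigenvalues of a Frobenius
element under `ρ` are, up to roots of unity, among the `b`-th powers of its eigenvalues under `ψ`.
We show that `ρ(U ∩ ker ψ)` is commutative for some open subgroup `U` of `G_K`, and that `ρ` is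
potentially abelian if `ψ` is potentially solvable.

So the irreducible representations for which at a positive proportion of the places all Frobenius
eigenvalues are roots of unity times (fractional) powers of `N(v)`, or all quotients of two of them are
roots of unity (take `ψ = det ρ`), or they are such multiples of values of Hecke characters, are
potentially abelian. The conjecture of Fontaine and Mazur is known for potentially abelian
representations, hence it holds for these representations. Nothing is assumed at the other places, at
the places above `p`, or on ramification; in the opposite direction, an irreducible geometric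
representation which is not potentially abelian (so it is not of CM type) has such Frobenius elements
only at a set of places of density `0`.

Proof.
1. The elements near the identity have no roots of unity among the quotients of their eigenvalues, so
   one finite exponent removes all roots of unity. The condition then says that certain representative
   functions vanish at the Frobenius elements. By Chebotarev's theorem for closed sets and since the zero
   set of a representative function is the union of its interior and of a null set, the condition holds
   on a coset `gU` of an open normal subgroup `U`.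
2. On `gH`, where `H = U ∩ ker ψ`, the eigenvalues of `ρ` lie in a fixed finite set. Let `L` be the Lie
   algebra spanned by the tangent vectors of `ρ(H)` over an algebraic closure. We show that `L` is
   solvable. If not, the element `g` and the group `H` act on the semisimple algebra `S = L / rad L`, and
   the elements of the coset have finitely many eigenvalues. Let `I` be a simple ideal of `S`, `P` a
   projection on `I`, and `r > 0` minimal with `g^r I = I`. Near the identity `tr(P (gu)^r)` is constant in
   `u`. Taking derivatives in the directions in `I` again and again we obtain `tr(g^r x_1 ... x_k) = 0` on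
   `I` for all `x_i ∈ ad(I)`, `k > 0`, since the other terms of the derivatives vanish. By Burnside's
   theorem the products span the endomorphisms of `I`, hence `ad(I) = 0`, a contradiction.
3. By Lie's theorem and the irreducibility of `ρ` the tangent vectors of `ρ(H)` commute, so `ρ(H)` is
   commutative near the identity. If `ψ` is potentially solvable, we consider the derived series of an
   open normal subgroup and apply Lie's theorem again.
-/

set_option autoImplicit false

namespace Pool.Agent.Results.MP_f68ac8_nt.PotentiallyAbelian

open NumberField IsDedekindDomain Filter Matrix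

/-- the absolute Galois group of the field `K`, with the Krull topology -/
abbrev AbsGal (K : Type) [Field K] : Type := Gal(AlgebraicClosure K/K)

/-- `g` is an (arithmetic) Frobenius element at a maximal ideal `Q` of the ring of all algebraic
integers which lies above the finite place `v` of `K`. -/
def IsFrobenius {K : Type} [Field K] [NumberField K] (v : HeightOneSpectrum (𝓞 K))
    (g : AbsGal K) : Prop :=
  ∃ Q : Ideal (𝓞 (AlgebraicClosure K)), Q.IsMaximal ∧
    Q.comap (algebraMap (𝓞 K) (𝓞 (AlgebraicClosure K))) = v.asIdeal ∧
    ∀ x : 𝓞 (AlgebraicClosure K), g • x - x ^ Ideal.absNorm v.asIdeal ∈ Q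

/-- the finite places of `K` whose norm is at most `x` -/
def placesUpTo (K : Type) [Field K] [NumberField K] (x : ℕ) : Set (HeightOneSpectrum (𝓞 K)) :=
  {v | Ideal.absNorm v.asIdeal ≤ x}

section
variable {K F : Type} [Field K] [Field F] {n : ℕ}

/-- the matrix of `g` -/
noncomputable def mat (ρ : AbsGal K →* GL (Fin n) F) (g : AbsGal K) : Matrix (Fin n) (Fin n) F :=
  (ρ g : GL (Fin n) F)

/-- `ρ` has no subrepresentations besides `0` and itself. -/
def Irreducible (ρ : AbsGal K →* GL (Fin n) F) : Prop :=
  ∀ W : Submodule F (Fin n → F), (∀ g, ∀ x ∈ W, mat ρ g *ᵥ x ∈ W) → W = ⊥ ∨ W = ⊤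

/-- The restriction of `ρ` to some open subgroup of the absolute Galois group (in other words, to
the absolute Galois group of some finite extension of `K`) has commutative image. -/
def IsPotentiallyAbelian (ρ : AbsGal K →* GL (Fin n) F) : Prop :=
  ∃ U : Subgroup (AbsGal K), IsOpen (U : Set (AbsGal K)) ∧
    ∀ σ ∈ U, ∀ τ ∈ U, ρ σ * ρ τ = ρ τ * ρ σ

/-- The restriction of `ρ` to some open subgroup has solvable image. -/
def IsPotentiallySolvable (ρ : AbsGal K →* GL (Fin n) F) : Prop :=
  ∃ U : Subgroup (AbsGal K), IsOpen (U : Set (AbsGal K)) ∧ Group.IsSolvable (U.map ρ)

end

/-- **Potentially abelian representations.**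

Let `K` be a number field, `p` a prime number, and `ρ : G_K → GL_n(ℚ_p)` a continuous irreducible
representation. Let `ψ : G_K → GL_k(ℚ_p)` be a continuous representation and `a > 0`, `b ≥ 0`.

Let `P` be a set of finite places of `K` of positive upper density. Suppose that for every `v ∈ P`
there are a Frobenius element `g` at `v` and a number `m > 0`, which may depend on `v`, such that
every eigenvalue of `ρ(g)^{am}` is an eigenvalue of `ψ(g)^{bm}` (the characteristic polynomial of the
first divides a power of that of the second).

Then the restriction of `ρ` to `U ∩ ker ψ` has commutative image for some open subgroup `U` of `G_K`.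
If `ψ` is potentially solvable, then `ρ` is potentially abelian. -/
theorem result {K : Type} [Field K] [NumberField K] (p : ℕ) [Fact p.Prime] {n k : ℕ}
    (ρ : AbsGal K →* GL (Fin n) ℚ_[p]) (hρ : Continuous ρ) (hirr : Irreducible ρ)
    (ψ : AbsGal K →* GL (Fin k) ℚ_[p]) (hψ : Continuous ψ) (a b : ℕ) (ha : 0 < a)
    (P : Set (HeightOneSpectrum (𝓞 K)))
    (hev : ∀ v ∈ P, ∃ g, IsFrobenius v g ∧ ∃ m : ℕ, 0 < m ∧
      (mat ρ (g ^ (a * m))).charpoly ∣ (mat ψ (g ^ (b * m))).charpoly ^ n)
    (δ : ℝ) (hδ : 0 < δ)
    (hP : ∃ᶠ x : ℕ in atTop, δ * Nat.primeCounting x ≤ ((placesUpTo K x ∩ P).ncard : ℝ)) :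
    (∃ U : Subgroup (AbsGal K), IsOpen (U : Set (AbsGal K)) ∧
      ∀ σ ∈ U, ∀ τ ∈ U, ψ σ = 1 → ψ τ = 1 → ρ σ * ρ τ = ρ τ * ρ σ) ∧
    (IsPotentiallySolvable ψ → IsPotentiallyAbelian ρ) := by
  refine Pool.Agent.K1H2.FM.Core.main4 ρ hρ hirr ψ hψ a b ha P hev hδ ?_
  refine (hP.and_eventually (Nat.tendsto_primeCounting.eventually_gt_atTop 0)).mono ?_
  rintro N ⟨h1, h2⟩
  have h4 : (0 : ℝ) < (Nat.primeCounting N : ℝ) := by exact_mod_cast h2
  unfold Pool.Agent.W401.Cheb.dens
  rw [le_div_iff₀ h4]
  exact h1

end Pool.Agent.Results.MP_f68ac8_nt.PotentiallyAbelian
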