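import Pool.Agent.K1H81.PW.Ari
import Pool.Agent.Results.MP_f68ac8_nt.MostTuplesRankTwo

/-!
# Three tame primes: representations of any dimension over any Noetherian local ring

Let `p` be an odd prime, `m ≥ 1`, and let `a`, `b`, `c` be distinct primes `≡ 1` modulo `p ^ m`, not `≡ 1` modulo `p ^ (m + 1)`.
Let `λ l j = χ j (l)` be the linking numbers, for nontrivial `χ j : (ℤ/j)ˣ → ℤ/p`, and `u l = (l - 1) / p ^ m` modulo `p`.
Suppose that `λ a b * λ b c * λ c a ≠ λ a c * λ c b * λ b a` and `u b * λ a c + u a * λ b c ≠ 0`. Then every continuous residually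
unipotent representation `ρ : Gal(ℚbar/ℚ) → GL_n(A)`, of any dimension `n` over any Noetherian local ring `A` with residue
characteristic `p` (for example, the ring of integers of a finite extension of `ℚ_p`, or a power series ring over a finite
field), which is unramified outside `a`, `b`, `c` and any primes not congruent to `0` or `1` modulo `p` (so unramified at `p`), has
finite image, of order dividing `p ^ (46 m)`. (With `A = 𝔽_p`, this says that the maximal `p`-extension of `ℚ` unramified outside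
these primes is finite, of degree dividing `p ^ (46 m)`.)

Moreover, for `m = 1`: for every odd prime `p`, for all primes `q₁ ≡ 1 mod p` but a proportion of at most `9 / p`, for all primes
`q₂ ≡ 1 mod p` but a proportion of at most `9 / p`, for all primes `q₃ ≡ 1 mod p` but a proportion of at most `9 / p`, this holds
for `q₁`, `q₂`, `q₃`.

Proof. Let `E` be a finite quotient of the Galois group `G` of the maximal `p`-extension of `ℚ` unramified outside the primes and
let `F k` be the terms of its lower exponent-`p` central series. By Koch, `G` has generators `x l` with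
`s l * x l * (s l)⁻¹ = x l ^ l`, where `s l = ∏ x j ^ λ l j` modulo `F 1`. The first condition implies that `E` is powerful:
`F (k + 1) = (F k)ᵖ` and `[E, F k] ≤ F (k + m)`. So the ranks `r k` of `F k / F (k + 1)` decrease. If they are constant for
`a ≤ k ≤ b` and `b ≥ a + 2 m`, then `E` acts on the layer `V = F a / F (a + 1)` by commutators, divided by `p ^ m`: a homomorphism
`M : E → End V` with `[M (s l), M (x l)] = u l • M (x l)`. It follows that the `M (x l)` are nilpotent (here `dim V ≤ 2`, or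
`a = 0` and `M (x l)` has a kernel), and then that they vanish, by the second condition. So `[E, F a] ≤ F (a + m + 1)`, and using
the relations again one gets `[E, F a] ≤ F (b - m + 1)`. Now the transfer into the centre of `E / F (b - m + 1)` shows that the
exponent of this group is small, and this is a contradiction if `b ≥ a + 2 m + log_p |E / F a|` and `r a > 0`. Hence
`r (2 m) ≤ 2`, `r (10 m) ≤ 1` and `r (34 m) = 0`.
-/

set_option autoImplicit false

open NumberField IsLocalRing

namespace Pool.Agent.Results.MP_f68ac8_nt.ThreeTamePrimes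

/-- The representation `ρ` of the absolute Galois group of `ℚ` is unramified at the prime ideal `P`
of the ring of all algebraic integers: the inertia group at `P` acts trivially. -/
def UnramifiedAt {n : ℕ} {A : Type} [CommRing A] (ρ : Gal(AlgebraicClosure ℚ/ℚ) →* GL (Fin n) A)
    (P : Ideal (𝓞 (AlgebraicClosure ℚ))) : Prop :=
  ∀ τ : Gal(AlgebraicClosure ℚ/ℚ), (∀ x : 𝓞 (AlgebraicClosure ℚ), τ • x - x ∈ P) → ρ τ = 1

/-- `ρ` is unramified at all primes that do not lie above a prime number in `S` (in particular at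
the primes above `p`, if `p ∉ S`). -/
def UnramifiedOutside {n : ℕ} {A : Type} [CommRing A] (S : Finset ℕ)
    (ρ : Gal(AlgebraicClosure ℚ/ℚ) →* GL (Fin n) A) : Prop :=
  ∀ P : Ideal (𝓞 (AlgebraicClosure ℚ)), P.IsMaximal →
    (∀ l ∈ S, (l : 𝓞 (AlgebraicClosure ℚ)) ∉ P) → UnramifiedAt ρ P

/-- `ρ` is residually unipotent: modulo the maximal ideal, all `ρ g - 1` are nilpotent. -/
def ResiduallyUnipotent {n : ℕ} {A : Type} [CommRing A] [IsLocalRing A]
    (ρ : Gal(AlgebraicClosure ℚ/ℚ) →* GL (Fin n) A) : Prop :=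
  ∀ g, ∃ N : ℕ, ∀ i j, (((ρ g : Matrix (Fin n) (Fin n) A) - 1) ^ N) i j ∈ maximalIdeal A

/-- The linking number `λ l j` of the distinct primes `l` and `j`: the value of the homomorphism
`χ j : (ℤ/j)ˣ → ℤ/p` at the class of `l` (and `0` if `j` divides `l`, in particular if `l = j`). -/
noncomputable def linking {p : ℕ} (χ : ∀ j : ℕ, (ZMod j)ˣ →* Multiplicative (ZMod p))
    (l j : ℕ) : ZMod p :=
  open Classical in if h : Nat.Coprime l j then
    Multiplicative.toAdd (χ j (ZMod.unitOfCoprime l h)) else 0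

/-- The class `u l` of `(l - 1) / p ^ m` modulo `p`. -/
def level (p m l : ℕ) : ZMod p := (((l - 1) / p ^ m : ℕ) : ZMod p)

/-- For all finite sets `S` of primes `l ≠ p` whose members congruent to `1` modulo `p` are in `T`, all `n` and all Noetherian
local rings `A` with the topology of the powers of the maximal ideal, which contains `p`, every continuous residually unipotent
`ρ : Gal(ℚbar/ℚ) → GL_n(A)` which is unramified outside `S` (so also at `p`) has finite image, of order dividing `p ^ e`. -/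
def BoundedImages (p e : ℕ) (T : Set ℕ) : Prop :=
  ∀ S : Finset ℕ, (∀ l ∈ S, l.Prime ∧ l ≠ p) → (∀ l ∈ S, p ∣ l - 1 → l ∈ T) →
    ∀ (n : ℕ) (A : Type) [CommRing A] [IsLocalRing A] [IsNoetherianRing A] [TopologicalSpace A],
      IsAdic (maximalIdeal A) → (p : A) ∈ maximalIdeal A →
    ∀ ρ : Gal(AlgebraicClosure ℚ/ℚ) →* GL (Fin n) A, Continuous ρ → UnramifiedOutside S ρ → ResiduallyUnipotent ρ →
      Finite ρ.range ∧ Nat.card ρ.range ∣ p ^ e

open Classical in
/-- The primes `q ≤ x` with `p ∣ q - 1`. -/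
noncomputable def Pr (p x : ℕ) : Finset ℕ := (Finset.range (x + 1)).filter fun q => q.Prime ∧ p ∣ q - 1

open Classical in
/-- `Most p δ R n T`: for all primes `q₁ ≡ 1 mod p`, `q₁ ∉ T`, but a proportion of at most `δ`, for all primes `q₂ ≡ 1 mod p`,
`q₂ ∉ T ∪ {q₁}`, but a proportion of at most `δ`, …, for all primes `q_n ≡ 1 mod p`, `q_n ∉ T ∪ {q₁, …, q_{n-1}}`, but a proportion
of at most `δ`, the set `T ∪ {q₁, …, q_n}` has the property `R`. -/
def Most (p : ℕ) (δ : ℝ) (R : Set ℕ → Prop) : ℕ → Set ℕ → Prop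
  | 0, T => R T
  | n + 1, T => ∀ ε : ℝ, 0 < ε → ∀ᶠ x : ℕ in Filter.atTop, (1 - δ - ε) * ((Pr p x).card : ℝ) ≤
      (((Pr p x).filter fun q => q ∉ T ∧ Most p δ R n (insert q T)).card : ℝ)

theorem most_iff (p : ℕ) (δ : ℝ) (R : Set ℕ → Prop) (n : ℕ) :
    ∀ T : Set ℕ, Most p δ R n T ↔ MostTuplesRankTwo.Most p δ R n T := by
  induction n with
  | zero => exact fun T => Iff.rfl
  | succ n ih =>
    intro T
    have ih' : Most p δ R n = MostTuplesRankTwo.Most p δ R n := funext fun T => propext (ih T)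
    have hPr : Pr = MostTuplesRankTwo.Pr := rfl
    unfold Most MostTuplesRankTwo.Most
    rw [ih', hPr]

/-- the criterion -/
theorem criterion (p m : ℕ) [Fact p.Prime] (hp2 : p ≠ 2) (hm : 1 ≤ m) (a b c : ℕ) (ha : a.Prime) (hb : b.Prime) (hc : c.Prime)
    (hab : a ≠ b) (hac : a ≠ c) (hbc : b ≠ c) (hv : ∀ l ∈ ({a, b, c} : Finset ℕ), p ^ m ∣ l - 1 ∧ ¬ p ^ (m + 1) ∣ l - 1)
    (χ : ∀ j : ℕ, (ZMod j)ˣ →* Multiplicative (ZMod p)) (hχ : ∀ l ∈ ({a, b, c} : Finset ℕ), ∃ x, χ l x ≠ 1)
    (hD : linking χ a b * linking χ b c * linking χ c a ≠ linking χ a c * linking χ c b * linking χ b a)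
    (hG : level p m b * linking χ a c + level p m a * linking χ b c ≠ 0) :
    BoundedImages p (46 * m) ({a, b, c} : Set ℕ) := by
  classical
  have hp : p.Prime := Fact.out
  intro S hS hT n A _ _ _ _ hA hpA ρ hρ hur hres
  have hlk : ∀ l j, linking χ l j = Pool.Agent.W569.TG.lk χ l j := fun l j => rfl
  have hdvd : ∀ l ∈ ({a, b, c} : Finset ℕ), p ∣ l - 1 := fun l hl =>
    (dvd_pow_self p (by omega)).trans (hv l hl).1
  have hprime : ∀ l ∈ ({a, b, c} : Finset ℕ), l.Prime := by
    intro l hl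
    simp only [Finset.mem_insert, Finset.mem_singleton] at hl
    rcases hl with rfl | rfl | rfl <;> assumption
  have hne : ∀ l ∈ ({a, b, c} : Finset ℕ), l ≠ p := by
    rintro l hl rfl
    have h1 := hdvd l hl
    have h2 := Nat.le_of_dvd (by have := hp.two_le; omega) h1
    have := hp.two_le
    omega
  let t : Fin 3 → ℕ := ![a, b, c]
  have ht0 : t 0 = a := rfl
  have ht1 : t 1 = b := rfl
  have ht2 : t 2 = c := rfl
  have htr : ∀ l, l ∈ Set.range t ↔ l ∈ ({a, b, c} : Finset ℕ) := by
    intro l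
    simp only [Finset.mem_insert, Finset.mem_singleton]
    constructor
    · rintro ⟨i, rfl⟩
      fin_cases i
      · exact Or.inl rfl
      · exact Or.inr (Or.inl rfl)
      · exact Or.inr (Or.inr rfl)
    · rintro (rfl | rfl | rfl)
      · exact ⟨0, rfl⟩
      · exact ⟨1, rfl⟩
      · exact ⟨2, rfl⟩
  have htm : ∀ i, t i ∈ ({a, b, c} : Finset ℕ) := fun i => (htr _).1 ⟨i, rfl⟩
  have hS' : ∀ l ∈ S ∪ {a, b, c}, l.Prime ∧ l ≠ p := by
    intro l hl
    rcases Finset.mem_union.1 hl with h | h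
    · exact hS l h
    · exact ⟨hprime l h, hne l h⟩
  have hT' : ∀ l ∈ S, p ∣ l - 1 → l ∈ ({a, b, c} : Finset ℕ) := by
    intro l hl hpl
    have h := hT l hl hpl
    simp only [Finset.mem_insert, Finset.mem_singleton]
    simp only [Set.mem_insert_iff, Set.mem_singleton_iff] at h
    exact h
  have hmem : ∀ l, (l ∈ S ∪ {a, b, c} ∧ p ∣ l - 1) ↔ l ∈ Set.range t := by
    intro l
    rw [htr]
    constructor
    · rintro ⟨h1, h2⟩
      rcases Finset.mem_union.1 h1 with h | h
      · exact hT' l h h2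
      · exact h
    · intro h
      exact ⟨Finset.mem_union_right _ h, hdvd l h⟩
  have hcond : Pool.Agent.K1H81.PW.Cond p m χ t := by
    refine ⟨?_, fun i => (hv _ (htm i)).1, fun i => (hv _ (htm i)).2, ?_, ?_⟩
    · have key : ∀ i j : Fin 3, i < j → t i ≠ t j := by
        intro i j h
        have h1 : (i = 0 ∧ j = 1) ∨ (i = 0 ∧ j = 2) ∨ (i = 1 ∧ j = 2) := by
          revert i j
          decide
        rcases h1 with ⟨rfl, rfl⟩ | ⟨rfl, rfl⟩ | ⟨rfl, rfl⟩
        · exact hab
        · exact hac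
        · exact hbc
      intro i j hij
      by_contra hne
      rcases lt_or_gt_of_ne hne with h | h
      · exact key i j h hij
      · exact key j i h hij.symm
    · rw [ht0, ht1, ht2, ← hlk, ← hlk, ← hlk, ← hlk, ← hlk, ← hlk]
      exact hD
    · rw [ht0, ht1, ht2, ← hlk, ← hlk]
      exact hG
  refine Pool.Agent.K1H81.PW.rep_bound (S := S ∪ {a, b, c}) (χ := χ) hp2 hS' ?_ hm hmem hcond hpA
    (Pool.Agent.TH831.NA.cts_memN hA hρ) (fun g => hres g) ?_
  · intro l hl hpl
    exact hχ l ((htr l).1 ((hmem l).1 ⟨hl, hpl⟩))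
  · rintro g ⟨P, hP, h2, h3⟩
    exact hur P hP (fun l hl => h2 l (Finset.mem_union_left _ hl)) g h3

open Finset Filter MvPolynomial
open Pool.Agent.K1H81.GT
open Pool.Agent.Q202.RT Pool.Agent.Q202.QT
open Pool.Agent.W569.TG (lk)
open MostTuplesRankTwo (asg_full asg_zero exists_scaled asg_succ)

section
variable {p : ℕ} [hpF : Fact p.Prime] {d : ℕ} {L : Type} [Field L] [Algebra (ZMod p) L]

/-- most tuples of primes satisfy a polynomial condition on the linking numbers -/
theorem most_of (hp2 : p ≠ 2) {R : Set ℕ → Prop} (xx : V d → L) {F : R0 d}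
    (hR : ∀ χ : ∀ j : ℕ, (ZMod j)ˣ →* Multiplicative (ZMod p), Kr χ → ∀ l : ℕ → ℕ, (∀ i < d, (l i).Prime) →
      (∀ i < d, p ∣ l i - 1) → (∀ i < d, ∀ j < d, l i = l j → i = j) → ev (full χ l) F ≠ 0 → R (l '' {i | i < d})) {δ : ℝ}
    (hδ : ((F.totalDegree : ℝ) + 1) / p ≤ δ) (m : ℕ) :
    ∀ (k : ℕ) (_ : k + m = d) (χ : ∀ j : ℕ, (ZMod j)ˣ →* Multiplicative (ZMod p)) (_ : Kr χ) (l : ℕ → ℕ),
      (∀ i < k, (l i).Prime) → (∀ i < k, p ∣ l i - 1) → (∀ i < k, ∀ j < k, l i = l j → i = j) →
      ev (asg xx χ l k) F ≠ 0 → MostTuplesRankTwo.Most p δ R m (l '' {i | i < k}) := by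
  classical
  have hp : p.Prime := hpF.out
  have hp0 : (0 : ℝ) < p := by exact_mod_cast hp.pos
  induction m with
  | zero =>
    intro k hk χ hχ l hl hpl hli hG
    obtain rfl : k = d := by omega
    refine hR χ hχ l hl hpl hli ?_
    rw [asg_full, ← hom_ev, map_ne_zero] at hG
    exact hG
  | succ m ih =>
    intro k hk χ hχ l hl hpl hli hG ε hε
    have hst := stage_count xx F χ l k (by omega) hG
    obtain ⟨Good, hGood⟩ : ∃ G : (Fin (k + 1) → ZMod p) → (Fin (k + 1) → ZMod p) → Prop,
        G = fun w s => w ≠ 0 ∧ ∃ c : ZMod p, c ≠ 0 ∧ ev (st xx (fun x : L => x) χ l k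
          (fun i => algebraMap (ZMod p) L (c * ext0 w i)) (fun i => algebraMap (ZMod p) L (ext0 s i))) F ≠ 0 :=
      ⟨_, rfl⟩
    have hd := densN (p := p) hp2 χ hχ (fun i : Fin k => l i) (fun i => hl i i.2) (fun i => hpl i i.2)
      (fun i j h => Fin.ext (hli i i.2 j j.2 h)) Good
      (fun w s h => by rw [hGood] at h; exact h.1) (by
        intro w s c hc h
        rw [hGood] at h ⊢
        obtain ⟨h1, c', hc', h2⟩ := h
        refine ⟨fun h0 => h1 (by
          funext j
          exact (mul_eq_zero.1 (congrFun h0 j)).resolve_left hc), c' * c⁻¹, mul_ne_zero hc' (inv_ne_zero hc), ?_⟩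
        have e1 : (fun i => algebraMap (ZMod p) L (c' * c⁻¹ * ext0 (fun j => c * w j) i)) =
            fun i => algebraMap (ZMod p) L (c' * ext0 w i) := by
          funext i
          congr 1
          have : ext0 (fun j => c * w j) i = c * ext0 w i := (ext0_map (fun x => c * x) (mul_zero c) w i).symm
          rw [this]
          field_simp
        rw [e1]
        exact h2) (1 - δ) (by
        have h1 : (0 : ℝ) ≤ ((F.totalDegree : ℝ) + 1) / p := by positivity
        linarith) (by
        rw [le_div_iff₀ (by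
          have : 0 < Fintype.card (Fin (k + 1) → ZMod p) := Fintype.card_pos
          positivity), Fintype.card_fun, ZMod.card, Fintype.card_fin]
        have h1 : (1 - δ) * ((p : ℝ) ^ (k + 1) * ((p ^ (k + 1) : ℕ) : ℝ)) ≤
            (1 - ((F.totalDegree : ℝ) + 1) / p) * ((p : ℝ) ^ (k + 1) * (p : ℝ) ^ (k + 1)) := by
          push_cast
          exact mul_le_mul_of_nonneg_right (by linarith) (by positivity)
        refine h1.trans (hst.trans ?_)
        rw [Nat.cast_le]
        refine sum_le_sum fun w _ => card_le_card ?_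
        intro s hs
        rw [mem_filter] at hs ⊢
        rw [hGood]
        refine ⟨hs.1, hs.2.1, 1, one_ne_zero, ?_⟩
        simp only [one_mul]
        exact hs.2.2) ε hε
    filter_upwards [hd] with x hx
    rw [MostTuplesRankTwo.Pr_eq]
    refine le_trans hx (Nat.cast_le.2 (card_le_card ?_))
    intro q hq
    obtain ⟨h1, h2, h34⟩ := (@Finset.mem_filter _ _ _ _ _).1 hq
    rw [hGood] at h34
    obtain ⟨h3, c, hc, h4⟩ := h34
    obtain ⟨-, hqp, hpq⟩ := mem_P1.1 h1
    have h2' : ∀ i < k, q ≠ l i := fun i hi => h2 ⟨i, hi⟩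
    simp only [Finset.mem_filter]
    refine ⟨h1, fun ⟨i, hi, h⟩ => h2' i hi h.symm, ?_⟩
    obtain ⟨χ', hχ', e1, e2⟩ := exists_scaled χ hχ q c hc
    have hins : insert q (l '' {i | i < k}) = (Function.update l k q) '' {i | i < k + 1} := by
      ext a
      constructor
      · rintro (rfl | ⟨i, hi, rfl⟩)
        · exact ⟨k, Nat.lt_succ_self k, Function.update_self _ _ _⟩
        · refine ⟨i, Nat.lt_succ_of_lt hi, Function.update_of_ne ?_ _ _⟩
          exact (Nat.ne_of_lt hi)
      · rintro ⟨i, hi, rfl⟩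
        rcases Nat.lt_succ_iff_lt_or_eq.1 hi with h | h
        · rw [Function.update_of_ne (Nat.ne_of_lt h)]
          exact Or.inr ⟨i, h, rfl⟩
        · rw [h, Function.update_self]
          exact Or.inl rfl
    rw [hins]
    have hup : ∀ i < k, Function.update l k q i = l i := fun i hi => Function.update_of_ne (Nat.ne_of_lt hi) _ _
    refine ih (k + 1) (by omega) χ' hχ' (Function.update l k q) ?_ ?_ ?_ ?_
    · intro i hi
      rcases Nat.lt_succ_iff_lt_or_eq.1 hi with h | h
      · rw [hup i h]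
        exact hl i h
      · rw [h, Function.update_self]
        exact hqp
    · intro i hi
      rcases Nat.lt_succ_iff_lt_or_eq.1 hi with h | h
      · rw [hup i h]
        exact hpl i h
      · rw [h, Function.update_self]
        exact hpq
    · intro i hi j hj hij
      rcases Nat.lt_succ_iff_lt_or_eq.1 hi with h | h
      · rcases Nat.lt_succ_iff_lt_or_eq.1 hj with h' | h'
        · rw [hup i h, hup j h'] at hij
          exact hli i h j h' hij
        · rw [hup i h, h', Function.update_self] at hij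
          exact absurd hij.symm (h2' i h)
      · rcases Nat.lt_succ_iff_lt_or_eq.1 hj with h' | h'
        · rw [hup j h', h, Function.update_self] at hij
          exact absurd hij (h2' j h')
        · omega
    · rw [asg_succ xx χ χ' l k q c e1 e2 h2'
        (ext0 (vec χ (Fin.cons p fun i : Fin k => l i) q)) (ext0 (Fin.cons (lv p q) fun i : Fin k => lk χ q (l i)))
        ?_ ?_ ?_]
      · exact h4
      · intro i hi
        unfold ext0
        rw [dif_pos (by omega : i + 1 < k + 1)]
        rfl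
      · intro j hj
        unfold ext0
        rw [dif_pos (by omega : j + 1 < k + 1)]
        rfl
      · unfold ext0
        rw [dif_pos (Nat.succ_pos k)]
        rfl

end

/-- a linking variable -/
noncomputable def XL (i j : Fin 3) (h : i ≠ j) : R0 3 := X (Sum.inl ⟨(i, j), h⟩)

/-- a level variable -/
noncomputable def YL (i : Fin 3) : R0 3 := X (Sum.inr i)

/-- the polynomial of the conditions -/
noncomputable def FF : R0 3 :=
  (XL 0 1 (by decide) * XL 1 2 (by decide) * XL 2 0 (by decide) - XL 0 2 (by decide) * XL 2 1 (by decide) * XL 1 0 (by decide)) *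
    (YL 1 * XL 0 2 (by decide) + YL 0 * XL 1 2 (by decide)) * (YL 0 * YL 1 * YL 2)

theorem FF_deg : FF.totalDegree ≤ 8 := by
  have hX : ∀ i j h, (XL i j h).totalDegree ≤ 1 := fun i j h => (totalDegree_X _).le
  have hY : ∀ i, (YL i).totalDegree ≤ 1 := fun i => (totalDegree_X _).le
  have hm : ∀ {f g : R0 3} {a b : ℕ}, f.totalDegree ≤ a → g.totalDegree ≤ b → (f * g).totalDegree ≤ a + b :=
    fun hf hg => (totalDegree_mul _ _).trans (Nat.add_le_add hf hg)
  have ha : ∀ {f g : R0 3} {a : ℕ}, f.totalDegree ≤ a → g.totalDegree ≤ a → (f + g).totalDegree ≤ a :=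
    fun hf hg => (totalDegree_add _ _).trans (max_le hf hg)
  have hs : ∀ {f g : R0 3} {a : ℕ}, f.totalDegree ≤ a → g.totalDegree ≤ a → (f - g).totalDegree ≤ a :=
    fun hf hg => (totalDegree_sub _ _).trans (max_le hf hg)
  exact hm (hm (hs (hm (hm (hX _ _ _) (hX _ _ _)) (hX _ _ _)) (hm (hm (hX _ _ _) (hX _ _ _)) (hX _ _ _)))
    (ha (hm (hY _) (hX _ _ _)) (hm (hY _) (hX _ _ _)))) (hm (hm (hY _) (hY _)) (hY _))

/-- **Three tame primes.** -/
theorem result :
    (∀ (p m : ℕ) [Fact p.Prime], p ≠ 2 → 1 ≤ m → ∀ a b c : ℕ, a.Prime → b.Prime → c.Prime → a ≠ b → a ≠ c → b ≠ c →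
      (∀ l ∈ ({a, b, c} : Finset ℕ), p ^ m ∣ l - 1 ∧ ¬ p ^ (m + 1) ∣ l - 1) →
      ∀ χ : ∀ j : ℕ, (ZMod j)ˣ →* Multiplicative (ZMod p), (∀ l ∈ ({a, b, c} : Finset ℕ), ∃ x, χ l x ≠ 1) →
      linking χ a b * linking χ b c * linking χ c a ≠ linking χ a c * linking χ c b * linking χ b a →
      level p m b * linking χ a c + level p m a * linking χ b c ≠ 0 →
      BoundedImages p (46 * m) {a, b, c}) ∧
    ∀ p : ℕ, p.Prime → p ≠ 2 → Most p (9 / p) (BoundedImages p 46) 3 ∅ := by
  refine ⟨fun p m _ hp2 hm a b c ha hb hc hab hac hbc hv χ hχ hD hG =>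
    criterion p m hp2 hm a b c ha hb hc hab hac hbc hv χ hχ hD hG, fun p hp hp2 => ?_⟩
  have : Fact p.Prime := ⟨hp⟩
  have hp0 : (0 : ℝ) < p := by exact_mod_cast hp.pos
  obtain ⟨χ, hχ⟩ := Pool.Agent.TH146.FM.exists_chi p
  rw [most_iff]
  let xx : V 3 → ZMod p := Sum.elim
    (fun y => if y.1 = (0, 1) ∨ y.1 = (1, 2) ∨ y.1 = (2, 0) then 1 else 0) (fun _ => 1)
  have hev : ∀ v : V 3 → ZMod p, ev v FF =
      (v (Sum.inl ⟨(0, 1), by decide⟩) * v (Sum.inl ⟨(1, 2), by decide⟩) * v (Sum.inl ⟨(2, 0), by decide⟩) -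
        v (Sum.inl ⟨(0, 2), by decide⟩) * v (Sum.inl ⟨(2, 1), by decide⟩) * v (Sum.inl ⟨(1, 0), by decide⟩)) *
      (v (Sum.inr 1) * v (Sum.inl ⟨(0, 2), by decide⟩) + v (Sum.inr 0) * v (Sum.inl ⟨(1, 2), by decide⟩)) *
      (v (Sum.inr 0) * v (Sum.inr 1) * v (Sum.inr 2)) := by
    intro v
    simp only [FF, XL, YL, map_mul, map_add, map_sub, ev_X]
  have h := most_of (p := p) (d := 3) hp2 (R := BoundedImages p 46) xx (F := FF) ?_ (δ := 9 / p) ?_ 3 0 (by omega) χ hχ
    (fun _ => 0) (fun i hi => absurd hi (Nat.not_lt_zero i)) (fun i hi => absurd hi (Nat.not_lt_zero i))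
    (fun i hi => absurd hi (Nat.not_lt_zero i)) ?_
  · have hemp : ((fun _ => 0 : ℕ → ℕ) '' {i | i < 0}) = ∅ := by
      rw [Set.image_eq_empty]
      ext i
      simp
    rw [hemp] at h
    exact h
  · intro χ hχ l hl hpl hli hne
    rw [hev] at hne
    have hne' := mul_ne_zero_iff.1 hne
    have hne1 := mul_ne_zero_iff.1 hne'.1
    have hne2 := mul_ne_zero_iff.1 hne'.2
    have hne3 := mul_ne_zero_iff.1 hne2.1
    have hlv : ∀ i < 3, lv p (l i) ≠ 0 → p ^ 1 ∣ l i - 1 ∧ ¬ p ^ (1 + 1) ∣ l i - 1 := by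
      intro i hi h1
      refine ⟨by rw [pow_one]; exact hpl i hi, fun hd => h1 ?_⟩
      unfold lv
      rw [ZMod.natCast_eq_zero_iff]
      obtain ⟨e, he⟩ := hd
      refine ⟨e, ?_⟩
      rw [he, pow_succ, pow_one, mul_assoc, Nat.mul_div_cancel_left _ hp.pos]
    have hset : l '' {i | i < 3} = ({l 0, l 1, l 2} : Set ℕ) := by
      ext x
      simp only [Set.mem_image, Set.mem_ofPred_eq, Set.mem_insert_iff, Set.mem_singleton_iff]
      constructor
      · rintro ⟨i, hi, rfl⟩
        interval_cases i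
        · exact Or.inl rfl
        · exact Or.inr (Or.inl rfl)
        · exact Or.inr (Or.inr rfl)
      · rintro (rfl | rfl | rfl)
        · exact ⟨0, by omega, rfl⟩
        · exact ⟨1, by omega, rfl⟩
        · exact ⟨2, by omega, rfl⟩
    rw [hset]
    have h01 : l 0 ≠ l 1 := fun h => by have := hli 0 (by omega) 1 (by omega) h; omega
    have h02 : l 0 ≠ l 2 := fun h => by have := hli 0 (by omega) 2 (by omega) h; omega
    have h12 : l 1 ≠ l 2 := fun h => by have := hli 1 (by omega) 2 (by omega) h; omega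
    have hlev : ∀ q, level p 1 q = lv p q := fun q => by
      unfold level lv
      rw [pow_one]
    refine criterion p 1 hp2 le_rfl (l 0) (l 1) (l 2) (hl 0 (by omega)) (hl 1 (by omega)) (hl 2 (by omega)) h01 h02 h12 ?_ χ ?_ ?_ ?_
    · intro q hq
      simp only [Finset.mem_insert, Finset.mem_singleton] at hq
      rcases hq with rfl | rfl | rfl
      · exact hlv 0 (by omega) hne3.1
      · exact hlv 1 (by omega) hne3.2
      · exact hlv 2 (by omega) hne2.2
    · intro q hq
      simp only [Finset.mem_insert, Finset.mem_singleton] at hq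
      rcases hq with rfl | rfl | rfl
      · exact (hχ _ (hl 0 (by omega)) (hpl 0 (by omega))).1
      · exact (hχ _ (hl 1 (by omega)) (hpl 1 (by omega))).1
      · exact (hχ _ (hl 2 (by omega)) (hpl 2 (by omega))).1
    · intro h0
      exact hne1.1 (sub_eq_zero.2 h0)
    · rw [hlev, hlev]
      exact hne1.2
  · refine div_le_div_of_nonneg_right ?_ hp0.le
    have h8 : ((FF.totalDegree : ℕ) : ℝ) ≤ 8 := by exact_mod_cast FF_deg
    linarith
  · rw [asg_zero, hev]
    have h1 : xx (Sum.inl ⟨(0, 1), by decide⟩) = 1 := by simp [xx]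
    have h2 : xx (Sum.inl ⟨(1, 2), by decide⟩) = 1 := by simp [xx]
    have h3 : xx (Sum.inl ⟨(2, 0), by decide⟩) = 1 := by simp [xx]
    have h4 : xx (Sum.inl ⟨(0, 2), by decide⟩) = 0 := by simp [xx]
    have h5 : ∀ i, xx (Sum.inr i) = 1 := fun i => rfl
    rw [h1, h2, h3, h4, h5, h5, h5]
    norm_num

end Pool.Agent.Results.MP_f68ac8_nt.ThreeTamePrimes
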